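import Mathlib
import Pool.Agent.TH53.UG5
import Pool.Agent.TH53.SL2
import Pool.Agent.W963.GE.Dob

/-!
# Few eigenvalues modulo `p`: lower bounds for the growth of digit sums
-/

set_option autoImplicit false

namespace Pool.Agent.V1156.GR

open Polynomial
open Pool.Agent.W963.GE (MM base eta_ge log_base_ge MM_ge MM_gt mm_dob)
open Pool.Agent.TH53.UG (integral_of_root eig_of_root)
open Pool.Agent.TH53.HR (rdeg rdeg_le NondegAt)

/-- the polynomial relation modulo `p`, for an arbitrary polynomial annihilating `M / p M` -/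
theorem dvd_of_poly {M : Type*} [AddCommGroup M] [Module.Finite ℤ M] (g : Module.End ℤ M) (c : M)
    {x : ℂ} (h : ∀ q : ℤ[X], (aeval g q) c = 0 → aeval x q = 0) {p : ℕ} [Fact p.Prime] (P : ℤ[X])
    (hc : ∀ m : M, ∃ m' : M, (aeval g P) m = (p : ℤ) • m') :
    ∃ N : ℕ, (minpoly ℤ x).map (Int.castRingHom (ZMod p)) ∣
      (P.map (Int.castRingHom (ZMod p))) ^ N := by
  have hx : IsIntegral ℤ x := integral_of_root g c h
  set f : Module.End ℤ M := aeval g P with hf
  have hI : LinearMap.range f ≤ (Ideal.span {(p : ℤ)}) • (⊤ : Submodule ℤ M) := by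
    rintro _ ⟨m, rfl⟩
    obtain ⟨m', hm'⟩ := hc m
    rw [hm']
    exact Submodule.smul_mem_smul (Ideal.mem_span_singleton_self _) trivial
  obtain ⟨Q, hQ, -, hcoef, hQ0⟩ :=
    LinearMap.exists_monic_and_natDegree_eq_and_coeff_mem_pow_and_aeval_eq_zero ℤ f
      (Ideal.span {(p : ℤ)}) hI
  have h1 : aeval g (Q.comp P) = 0 := by
    rw [aeval_comp]
    exact hQ0
  have h2 : aeval x (Q.comp P) = 0 := by
    apply h
    rw [h1]; rfl
  obtain ⟨R, hR⟩ := minpoly.isIntegrallyClosed_dvd hx h2
  have hQmap : Q.map (Int.castRingHom (ZMod p)) = X ^ Q.natDegree := by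
    ext k
    rw [coeff_map, coeff_X_pow]
    split_ifs with hk
    · rw [hk, hQ.coeff_natDegree]; simp
    · rcases lt_or_gt_of_ne hk with hlt | hgt
      · have h3 := hcoef k
        have h4 : Q.coeff k ∈ Ideal.span {(p : ℤ)} :=
          Ideal.pow_le_self (by omega) h3
        rw [Ideal.mem_span_singleton] at h4
        exact (ZMod.intCast_zmod_eq_zero_iff_dvd _ _).mpr h4
      · rw [coeff_eq_zero_of_natDegree_lt hgt, map_zero]
  refine ⟨Q.natDegree, ?_⟩
  have h3 : (minpoly ℤ x).map (Int.castRingHom (ZMod p)) ∣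
      (Q.comp P).map (Int.castRingHom (ZMod p)) := by
    rw [hR, Polynomial.map_mul]
    exact dvd_mul_right _ _
  have h4 : (Q.comp P).map (Int.castRingHom (ZMod p)) =
      (P.map (Int.castRingHom (ZMod p))) ^ Q.natDegree := by
    rw [Polynomial.map_comp, hQmap]
    simp
  rw [← h4]
  exact h3

/-- the number of distinct zeros modulo `p` in terms of the annihilating polynomial -/
theorem rdeg_le_of_dvd {p : ℕ} [Fact p.Prime] {f P : ℤ[X]} (hf : f.Monic) (hP : P.Monic) {N : ℕ}
    (h : f.map (Int.castRingHom (ZMod p)) ∣ (P.map (Int.castRingHom (ZMod p))) ^ N) :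
    rdeg (f.map (Int.castRingHom (ZMod p))) ≤
      ((P.map (Int.castRingHom (ZMod p))).rootSet (AlgebraicClosure (ZMod p))).ncard := by
  refine (rdeg_le _ (hf.map _).ne_zero (Ω := AlgebraicClosure (ZMod p))).trans ?_
  apply Set.ncard_le_ncard _ (rootSet_finite _ _)
  intro x hx
  rw [mem_rootSet_of_ne (hf.map _).ne_zero] at hx
  rw [mem_rootSet_of_ne (hP.map _).ne_zero]
  obtain ⟨R, hR⟩ := h
  have h1 : (aeval x (P.map (Int.castRingHom (ZMod p)))) ^ N = 0 := by
    rw [← map_pow, hR, map_mul, hx, zero_mul]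
  have hN : N ≠ 0 := fun h0 => by
    rw [h0, pow_zero] at h1; exact one_ne_zero h1
  exact (pow_eq_zero_iff hN).1 h1

/-- elementary estimate -/
lemma log_le_two_sqrt {x : ℝ} (hx : 1 ≤ x) : Real.log x ≤ 2 * Real.sqrt x := by
  have h1 := Real.log_le_sub_one_of_pos (show 0 < Real.sqrt x by positivity)
  have h2 : Real.log (Real.sqrt x) = Real.log x / 2 := Real.log_sqrt (by linarith)
  rw [h2] at h1
  linarith

/-- if the degree is not large then it is polynomially bounded -/
lemma degree_small {p s n : ℝ} (hp : 2 ≤ p) (hs : 1 ≤ s) (hn : 1 ≤ n)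
    (h : n * Real.log p < 16 * p * s * (Real.log n + Real.log p)) :
    Real.log (2 * n) ≤ 8 * Real.log (2 * p * s) := by
  have hl2 := Real.log_two_gt_d9
  have hlp : Real.log 2 ≤ Real.log p := Real.log_le_log (by norm_num) hp
  have hlp0 : 0 < Real.log p := by linarith
  have hps : 2 ≤ p * s := by nlinarith
  set r := Real.sqrt n with hr
  have hr1 : 1 ≤ r := by
    rw [hr]; exact Real.one_le_sqrt.2 hn
  have hrn : r ^ 2 = n := Real.sq_sqrt (by linarith)
  have h1 : Real.log n ≤ 2 * r := log_le_two_sqrt hn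
  -- n < 16 p s (3 r + 1) ≤ 64 p s r
  have h2 : n < 16 * p * s * (3 * r + 1) := by
    by_contra hcon
    push Not at hcon
    have h3 : 16 * p * s * (3 * r + 1) * Real.log p ≤ n * Real.log p :=
      mul_le_mul_of_nonneg_right hcon hlp0.le
    have h4 : Real.log n + Real.log p ≤ (3 * r + 1) * Real.log p := by
      have : 2 * r ≤ 3 * r * Real.log p := by nlinarith
      nlinarith
    have h5 : 16 * p * s * (Real.log n + Real.log p) ≤ 16 * p * s * ((3 * r + 1) * Real.log p) :=
      mul_le_mul_of_nonneg_left h4 (by positivity)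
    nlinarith
  have h3 : n < 64 * (p * s) * r := by nlinarith
  have h4 : r < 64 * (p * s) := by
    rw [← hrn] at h3
    nlinarith
  have h5 : n ≤ (64 * (p * s)) ^ 2 := by
    rw [← hrn]
    exact pow_le_pow_left₀ (by linarith) h4.le 2
  have h6 : 2 * n ≤ (2 * p * s) ^ 8 := by
    have h7 : (4 : ℝ) ≤ 2 * p * s := by nlinarith
    have h8 : (4 : ℝ) ^ 6 ≤ (2 * p * s) ^ 6 := pow_le_pow_left₀ (by norm_num) h7 6
    have h9 : (2 * p * s) ^ 8 = (2 * p * s) ^ 6 * (4 * (p * s) ^ 2) := by ring
    have h10 : (64 * (p * s)) ^ 2 = 4096 * (p * s) ^ 2 := by ring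
    rw [h9]
    rw [h10] at h5
    have h11 : (0 : ℝ) ≤ (p * s) ^ 2 := by positivity
    nlinarith
  calc Real.log (2 * n) ≤ Real.log ((2 * p * s) ^ 8) := Real.log_le_log (by linarith) h6
    _ = 8 * Real.log (2 * p * s) := by rw [Real.log_pow]; norm_num

/-- **few zeros modulo `p`** -/
theorem few_zeros : ∃ c : ℝ, 0 < c ∧ c ≤ 1 / 20 ∧ ∀ (p s : ℕ) [Fact p.Prime], 1 ≤ s →
    ∀ x : ℂ, IsIntegral ℤ x → x ≠ 0 → (∀ m > 0, x ^ m ≠ 1) → NondegAt p (minpoly ℤ x) →
    rdeg ((minpoly ℤ x).map (Int.castRingHom (ZMod p))) ≤ s →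
    c / (Real.log (2 * p * s)) ^ 3 ≤ H746UG.eta x := by
  obtain ⟨c0, hc0, hdob⟩ := mm_dob
  refine ⟨min (c0 / 4096) (1 / 20), by positivity, min_le_right _ _, ?_⟩
  intro p s _ hs x hxi hx0 hx hnd hrd
  set c := min (c0 / 4096) (1 / 20) with hc
  have hcpos : 0 < c := by positivity
  have hp : p.Prime := Fact.out
  have hp2 : (2 : ℝ) ≤ p := by exact_mod_cast hp.two_le
  have hs1 : (1 : ℝ) ≤ s := by exact_mod_cast hs
  have hl2 := Real.log_two_gt_d9
  have hlp : Real.log 2 ≤ Real.log p := Real.log_le_log (by norm_num) hp2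
  set n : ℝ := ((minpoly ℤ x).natDegree : ℝ) with hn
  have hn1 : 1 ≤ n := by
    rw [hn]; exact_mod_cast minpoly.natDegree_pos hxi
  set l := Real.log (2 * p * s) with hl
  have hl4 : 2 * Real.log 2 ≤ l := by
    have h1 : Real.log 4 = 2 * Real.log 2 := by
      rw [show (4 : ℝ) = 2 ^ 2 by norm_num, Real.log_pow]; norm_num
    rw [← h1]
    apply Real.log_le_log (by norm_num)
    nlinarith
  have hl1 : (1 : ℝ) ≤ l := by linarith
  have hl3 : (1 : ℝ) ≤ l ^ 3 := one_le_pow₀ hl1
  have hl0 : 0 < l ^ 3 := by linarith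
  refine le_trans ?_ ((log_base_ge (MM_ge x hxi)).trans (eta_ge x hx0 hxi))
  rw [div_le_div_iff₀ hl0 (by norm_num)]
  have hcase : Real.log 2 / 4 ≤ Real.log (MM x) ∨ c0 / (512 * l ^ 3) ≤ Real.log (MM x) := by
    by_cases h : 16 * (p : ℝ) * s * (Real.log n + Real.log p) ≤ n * Real.log p
    · left
      have hmon := minpoly.monic hxi
      have h1 := Pool.Agent.TH53.SL.monic_bound p (minpoly ℤ x) (minpoly.irreducible hxi) hmon hnd
        (1 / 2) (by norm_num) (by norm_num) (by
          have h2 : (rdeg ((minpoly ℤ x).map (Int.castRingHom (ZMod p))) : ℝ) ≤ s := by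
            exact_mod_cast hrd
          have h3 : 0 ≤ Real.log n + Real.log p := by
            have := Real.log_nonneg hn1
            linarith
          have h4 : 4 * (p : ℝ) * rdeg ((minpoly ℤ x).map (Int.castRingHom (ZMod p))) *
              (Real.log n + Real.log p) ≤ 4 * (p : ℝ) * s * (Real.log n + Real.log p) := by
            apply mul_le_mul_of_nonneg_right _ h3
            apply mul_le_mul_of_nonneg_left h2 (by linarith)
          refine h4.trans ?_
          have h5 : (1 / 2 : ℝ) ^ 2 * n * Real.log p = (n * Real.log p) / 4 := by ring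
          rw [h5]
          linarith)
      have h2 : MM x = ((minpoly ℤ x).map (Int.castRingHom ℂ)).mahlerMeasure := rfl
      rw [h2]
      linarith
    · right
      push Not at h
      have h1 := degree_small hp2 hs1 hn1 h
      have h2 := hdob x hxi hx0 hx
      refine le_trans ?_ h2
      have h3 : 0 < Real.log (2 * n) := Real.log_pos (by linarith)
      have h4 : Real.log (2 * n) ^ 3 ≤ 512 * l ^ 3 := by
        calc Real.log (2 * n) ^ 3 ≤ (8 * l) ^ 3 := pow_le_pow_left₀ h3.le h1 3
          _ = 512 * l ^ 3 := by ring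
      exact div_le_div_of_nonneg_left hc0.le (by positivity) h4
  have hc20 : c ≤ 1 / 20 := min_le_right _ _
  have hcc : c ≤ c0 / 4096 := min_le_left _ _
  rcases hcase with h | h
  · have h1 : Real.log 2 / 4 ≤ min 1 (Real.log (MM x)) := by
      apply le_min _ h
      have := Real.log_two_lt_d9
      linarith
    have hl3' : (2.6 : ℝ) ≤ l ^ 3 := by
      have : (1.38 : ℝ) ≤ l := by linarith
      calc (2.6 : ℝ) ≤ 1.38 ^ 3 := by norm_num
        _ ≤ l ^ 3 := pow_le_pow_left₀ (by norm_num) this 3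
    nlinarith
  · rcases le_or_gt 1 (Real.log (MM x)) with h1 | h1
    · rw [min_eq_left h1]
      linarith
    · rw [min_eq_right h1.le]
      rw [div_le_iff₀ (by positivity)] at h
      linarith

end Pool.Agent.V1156.GR
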