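import Mathlib
import Pool.Agent.V1156.GR.Few
import Pool.Agent.TH53.SL4

/-!
# Few eigenvalues modulo `p` relative to the degree
-/

set_option autoImplicit false

namespace Pool.Agent.V1156.GR

open Polynomial
open Pool.Agent.W963.GE (MM base eta_ge log_base_ge MM_ge MM_gt mm_dob)
open Pool.Agent.TH53.HR (rdeg rdeg_le)
open Pool.Agent.TH53.SL (powZeros)

/-- from the Mahler measure to the digit sums -/
theorem eta_of_mm {x : ℂ} (hxi : IsIntegral ℤ x) (hx0 : x ≠ 0) {c : ℝ} (hc : 8 * c ≤ 1)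
    (h : 8 * c ≤ Real.log (MM x)) : c ≤ H746UG.eta x := by
  refine le_trans ?_ ((log_base_ge (MM_ge x hxi)).trans (eta_ge x hx0 hxi))
  rw [le_div_iff₀ (by norm_num)]
  rw [mul_comm]
  exact le_min hc h

/-- **small degree, or few zeros modulo `p` relative to the degree** -/
theorem few_zeros' : ∃ c : ℝ, 0 < c ∧ c ≤ 1 / 400 ∧ ∀ (m : ℕ), 1 ≤ m →
    ∀ x : ℂ, IsIntegral ℤ x → x ≠ 0 → (∀ n > 0, x ^ n ≠ 1) →
    ((minpoly ℤ x).natDegree ≤ m ∨ ∃ (p s N : ℕ) (_ : Fact p.Prime), 1 ≤ N ∧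
      (∀ j, N ≤ powZeros p (minpoly ℤ x) j) ∧
      rdeg ((minpoly ℤ x).map (Int.castRingHom (ZMod p))) ≤ s ∧
      16 * (p : ℝ) * s * Real.log (p * N) ≤ N * Real.log p) →
    c / (Real.log (2 * m)) ^ 3 ≤ H746UG.eta x := by
  obtain ⟨c0, hc0, hdob⟩ := mm_dob
  refine ⟨min (c0 / 8) (1 / 400), by positivity, min_le_right _ _, ?_⟩
  intro m hm x hxi hx0 hx h
  set c := min (c0 / 8) (1 / 400) with hc
  have hcpos : 0 < c := by positivity
  have hc400 : c ≤ 1 / 400 := min_le_right _ _
  have hcc : c ≤ c0 / 8 := min_le_left _ _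
  have hl2 := Real.log_two_gt_d9
  have hm1 : (1 : ℝ) ≤ m := by exact_mod_cast hm
  set l := Real.log (2 * m) with hl
  have hl2' : Real.log 2 ≤ l := Real.log_le_log (by norm_num) (by linarith)
  have hl3 : (1 / 4 : ℝ) ≤ l ^ 3 := by
    have : (0.69 : ℝ) ≤ l := by linarith
    calc (1 / 4 : ℝ) ≤ 0.69 ^ 3 := by norm_num
      _ ≤ l ^ 3 := pow_le_pow_left₀ (by norm_num) this 3
  have hl0 : 0 < l ^ 3 := by linarith
  have hcl : c / l ^ 3 ≤ 4 * c := by
    rw [div_le_iff₀ hl0]
    nlinarith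
  apply eta_of_mm hxi hx0
  · linarith
  rcases h with h | ⟨p, s, N, hpF, hN1, hN, hrd, hfew⟩
  · have h2 := hdob x hxi hx0 hx
    refine le_trans ?_ h2
    have hn1 : (1 : ℝ) ≤ (minpoly ℤ x).natDegree := by exact_mod_cast minpoly.natDegree_pos hxi
    have h3 : 0 < Real.log (2 * (minpoly ℤ x).natDegree) := Real.log_pos (by linarith)
    have hnm : ((minpoly ℤ x).natDegree : ℝ) ≤ m := by exact_mod_cast h
    have h4 : Real.log (2 * (minpoly ℤ x).natDegree) ≤ l :=
      Real.log_le_log (by linarith) (by linarith)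
    have h5 : 8 * c ≤ c0 := by linarith
    calc 8 * (c / l ^ 3) = 8 * c / l ^ 3 := by ring
      _ ≤ c0 / l ^ 3 := div_le_div_of_nonneg_right h5 hl0.le
      _ ≤ _ := div_le_div_of_nonneg_left hc0.le (by positivity) (pow_le_pow_left₀ h3.le h4 3)
  · have hp : p.Prime := Fact.out
    have hp2 : (2 : ℝ) ≤ p := by exact_mod_cast hp.two_le
    have hN1' : (1 : ℝ) ≤ N := by exact_mod_cast hN1
    have hlp : Real.log 2 ≤ Real.log p := Real.log_le_log (by norm_num) hp2
    have hlog : Real.log (p * N) = Real.log N + Real.log p := by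
      rw [Real.log_mul (by linarith) (by linarith)]
      ring
    have hl0' : 0 ≤ Real.log N + Real.log p := by
      have := Real.log_nonneg hN1'
      linarith
    have h1 := Pool.Agent.TH53.SL.monic_bound' p (minpoly ℤ x) (minpoly.irreducible hxi)
      (minpoly.monic hxi) N hN (1 / 2) (by norm_num) (by norm_num) (by
        have h2 : (rdeg ((minpoly ℤ x).map (Int.castRingHom (ZMod p))) : ℝ) ≤ s := by
          exact_mod_cast hrd
        have h4 : 4 * (p : ℝ) * rdeg ((minpoly ℤ x).map (Int.castRingHom (ZMod p))) *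
            (Real.log N + Real.log p) ≤ 4 * (p : ℝ) * s * (Real.log N + Real.log p) := by
          apply mul_le_mul_of_nonneg_right _ hl0'
          apply mul_le_mul_of_nonneg_left h2 (by linarith)
        refine h4.trans ?_
        rw [hlog] at hfew
        have h5 : (1 / 2 : ℝ) ^ 2 * N * Real.log p = (N * Real.log p) / 4 := by ring
        rw [h5]
        linarith)
    have h2 : MM x = ((minpoly ℤ x).map (Int.castRingHom ℂ)).mahlerMeasure := rfl
    rw [h2]
    linarith

end Pool.Agent.V1156.GR
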