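import Mathlib
import Pool.Agent.V1156.GR.Few2
import Pool.Agent.H252R3.Leh.Fin

/-!
# Many irreducible factors modulo `p`: lower bounds for the growth of digit sums
-/

set_option autoImplicit false

namespace Pool.Agent.V1156.GR

open Polynomial UniqueFactorizationMonoid
open Pool.Agent.W963.GE (MM base eta_ge log_base_ge MM_ge MM_gt mm_dob)

/-- **small degree, or many irreducible factors modulo `p`** -/
theorem many_factors : ∃ c : ℝ, 0 < c ∧ c ≤ 1 / 400 ∧ ∀ (m : ℕ), 1 ≤ m → ∀ (p : ℕ) [Fact p.Prime]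
    (θ : ℝ), 0 < θ → θ ≤ 1 →
    ∀ (x : ℂ), IsIntegral ℤ x → x ≠ 0 → (∀ n > 0, x ^ n ≠ 1) →
    ((minpoly ℤ x).natDegree ≤ m ∨ θ * (minpoly ℤ x).natDegree ≤
      Multiset.card (normalizedFactors ((minpoly ℤ x).map (Int.castRingHom (ZMod p))))) →
    c * θ ^ 10 * (p : ℝ) ^ (-(2 / θ) - 2) / (Real.log (2 * m)) ^ 3 ≤ H746UG.eta x := by
  obtain ⟨c0, hc0, hdob⟩ := mm_dob
  refine ⟨min (c0 / 8) (1 / (32 * 180 ^ 5)), by positivity,
    (min_le_right _ _).trans (by norm_num), ?_⟩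
  intro m hm p _ θ hθ hθ1 x hxi hx0 hx h
  set c := min (c0 / 8) (1 / (32 * 180 ^ 5)) with hc
  have hcpos : 0 < c := by positivity
  have hc400 : c ≤ 1 / (32 * 180 ^ 5) := min_le_right _ _
  have hcc : c ≤ c0 / 8 := min_le_left _ _
  have hp : p.Prime := Fact.out
  have hp1 : (1 : ℝ) ≤ p := by exact_mod_cast hp.one_le
  have hp0 : (0 : ℝ) < p := by linarith
  have hl2 := Real.log_two_gt_d9
  have hm1 : (1 : ℝ) ≤ m := by exact_mod_cast hm
  set l := Real.log (2 * m) with hl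
  have hl2' : Real.log 2 ≤ l := Real.log_le_log (by norm_num) (by linarith)
  have hl3 : (1 / 4 : ℝ) ≤ l ^ 3 := by
    have : (0.69 : ℝ) ≤ l := by linarith
    calc (1 / 4 : ℝ) ≤ 0.69 ^ 3 := by norm_num
      _ ≤ l ^ 3 := pow_le_pow_left₀ (by norm_num) this 3
  have hl0 : 0 < l ^ 3 := by linarith
  have hθ10 : θ ^ 10 ≤ 1 := pow_le_one₀ hθ.le hθ1
  have hq : (p : ℝ) ^ (-(2 / θ) - 2) ≤ 1 := by
    apply Real.rpow_le_one_of_one_le_of_nonpos hp1
    have : 0 < 2 / θ := by positivity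
    linarith
  have hq0 : 0 < (p : ℝ) ^ (-(2 / θ) - 2) := Real.rpow_pos_of_pos hp0 _
  set w := θ ^ 10 * (p : ℝ) ^ (-(2 / θ) - 2) with hw
  have hw0 : 0 < w := by positivity
  have hw1 : w ≤ 1 := by
    rw [hw]
    exact mul_le_one₀ hθ10 hq0.le hq
  have e0 : c * θ ^ 10 * (p : ℝ) ^ (-(2 / θ) - 2) / l ^ 3 = c * w / l ^ 3 := by
    rw [hw]; ring
  rw [e0]
  have hcl : c * w / l ^ 3 ≤ 4 * (c * w) := by
    rw [div_le_iff₀ hl0]
    have : 0 < c * w := by positivity
    nlinarith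
  have hcw : c * w ≤ c := by nlinarith
  have hMgt := MM_gt x hxi hx0 hx
  apply eta_of_mm hxi hx0
  · norm_num at hc400; linarith
  have h2 : MM x = ((minpoly ℤ x).map (Int.castRingHom ℂ)).mahlerMeasure := rfl
  have hn1 : (1 : ℝ) ≤ (minpoly ℤ x).natDegree := by exact_mod_cast minpoly.natDegree_pos hxi
  rcases h with h | h
  · have h2 := hdob x hxi hx0 hx
    refine le_trans ?_ h2
    have h3 : 0 < Real.log (2 * (minpoly ℤ x).natDegree) := Real.log_pos (by linarith)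
    have hnm : ((minpoly ℤ x).natDegree : ℝ) ≤ m := by exact_mod_cast h
    have h4 : Real.log (2 * (minpoly ℤ x).natDegree) ≤ l :=
      Real.log_le_log (by linarith) (by linarith)
    have h5 : 8 * (c * w) ≤ c0 := by linarith
    calc 8 * (c * w / l ^ 3) = 8 * (c * w) / l ^ 3 := by ring
      _ ≤ c0 / l ^ 3 := div_le_div_of_nonneg_right h5 hl0.le
      _ ≤ _ := div_le_div_of_nonneg_left hc0.le (by positivity) (pow_le_pow_left₀ h3.le h4 3)
  · have h1 := H252R3.Leh.factor_bound p (minpoly ℤ x) (minpoly.irreducible hxi)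
      (by rw [← h2]; exact hMgt)
    rw [← h2] at h1
    refine le_trans ?_ h1
    set r : ℝ := (Multiset.card
      (normalizedFactors ((minpoly ℤ x).map (Int.castRingHom (ZMod p)))) : ℝ) with hr
    set n : ℝ := ((minpoly ℤ x).natDegree : ℝ) with hn
    have hr0 : 0 < r := lt_of_lt_of_le (by positivity) h
    have h3 : θ ≤ r / n := by rw [le_div_iff₀ (by linarith)]; exact h
    have h4 : 2 * n / r ≤ 2 / θ := by
      rw [div_le_div_iff₀ hr0 hθ]
      nlinarith
    have h5 : (p : ℝ) ^ (-(2 / θ) - 2) ≤ (p : ℝ) ^ (-(2 * n / r) - 2) :=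
      Real.rpow_le_rpow_of_exponent_le hp1 (by linarith)
    have h6 : (θ ^ 2 / 180) ^ 5 ≤ ((r / n) ^ 2 / 180) ^ 5 := by
      apply pow_le_pow_left₀ (by positivity)
      apply div_le_div_of_nonneg_right _ (by norm_num)
      exact pow_le_pow_left₀ hθ.le h3 2
    calc 8 * (c * w / l ^ 3) ≤ 8 * (4 * (c * w)) := by linarith
      _ = 32 * c * w := by ring
      _ ≤ (1 / 180 ^ 5) * w := by
          apply mul_le_mul_of_nonneg_right _ hw0.le
          norm_num at hc400 ⊢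
          linarith
      _ = (θ ^ 2 / 180) ^ 5 * (p : ℝ) ^ (-(2 / θ) - 2) := by rw [hw]; ring
      _ ≤ ((r / n) ^ 2 / 180) ^ 5 * (p : ℝ) ^ (-(2 * n / r) - 2) :=
          mul_le_mul h6 h5 hq0.le (by positivity)

end Pool.Agent.V1156.GR
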