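import Mathlib
import Pool.Agent.V1156.GR.Few2
import Pool.Agent.V1156.RC.Main

/-!
# Large resultants with products of cyclotomic polynomials: growth of digit sums
-/

set_option autoImplicit false

namespace Pool.Agent.V1156.GR

open Polynomial
open Pool.Agent.W963.GE (MM base eta_ge log_base_ge MM_ge MM_gt mm_dob)

/-- **small degree, or a large resultant** -/
theorem large_res : ∃ c : ℝ, 0 < c ∧ c ≤ 1 / 400 ∧ ∀ (m : ℕ), 1 ≤ m →
    ∀ (x : ℂ), IsIntegral ℤ x → x ≠ 0 → (∀ n > 0, x ^ n ≠ 1) →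
    ((minpoly ℤ x).natDegree ≤ m ∨
      ((∀ z z' : ℂ, aeval z (minpoly ℤ x) = 0 → aeval z' (minpoly ℤ x) = 0 → z ≠ z' →
        ∀ j : ℕ, 1 ≤ j → z ^ j ≠ z' ^ j) ∧
      ∃ 𝒟 : Finset ℕ, 𝒟.Nonempty ∧ (∀ m ∈ 𝒟, 0 < m) ∧ (∀ m ∈ 𝒟, ∀ d, d ∣ m → d ∈ 𝒟) ∧
        (∑ m ∈ 𝒟, Nat.totient m) ≤ (minpoly ℤ x).natDegree ∧
        200 * (Real.sqrt ((minpoly ℤ x).natDegree * (∑ m ∈ 𝒟, Nat.totient m : ℕ)) *
          (1 + Real.log (minpoly ℤ x).natDegree) ^ (3 / 4 : ℝ)) ≤
            Real.log (V1156.RC.resAbs (minpoly ℤ x) (∏ m ∈ 𝒟, cyclotomic m ℤ)))) →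
    c / (Real.log (2 * m)) ^ 3 ≤ H746UG.eta x := by
  obtain ⟨c0, hc0, hdob⟩ := mm_dob
  refine ⟨min (c0 / 8) (1 / 400), by positivity, min_le_right _ _, ?_⟩
  intro m hm x hxi hx0 hx h
  set c := min (c0 / 8) (1 / 400) with hc
  have hcpos : 0 < c := by positivity
  have hc400 : c ≤ 1 / 400 := min_le_right _ _
  have hcc : c ≤ c0 / 8 := min_le_left _ _
  have hl2 := Real.log_two_gt_d9
  have hm1 : (1 : ℝ) ≤ m := by exact_mod_cast hm
  set l := Real.log (2 * m) with hl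
  have hl2' : Real.log 2 ≤ l := Real.log_le_log (by norm_num) (by linarith)
  have hl3 : (1 / 4 : ℝ) ≤ l ^ 3 := by
    have : (0.69 : ℝ) ≤ l := by linarith
    calc (1 / 4 : ℝ) ≤ 0.69 ^ 3 := by norm_num
      _ ≤ l ^ 3 := pow_le_pow_left₀ (by norm_num) this 3
  have hl0 : 0 < l ^ 3 := by linarith
  have hcl : c / l ^ 3 ≤ 4 * c := by
    rw [div_le_iff₀ hl0]
    nlinarith
  have hMgt := MM_gt x hxi hx0 hx
  apply eta_of_mm hxi hx0
  · linarith
  have h2 : MM x = ((minpoly ℤ x).map (Int.castRingHom ℂ)).mahlerMeasure := rfl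
  have hn1 : (1 : ℝ) ≤ (minpoly ℤ x).natDegree := by exact_mod_cast minpoly.natDegree_pos hxi
  rcases h with h | ⟨hnd, 𝒟, hne, hpos, hcl2, ht, hΛ⟩
  · have h2 := hdob x hxi hx0 hx
    refine le_trans ?_ h2
    have h3 : 0 < Real.log (2 * (minpoly ℤ x).natDegree) := Real.log_pos (by linarith)
    have hnm : ((minpoly ℤ x).natDegree : ℝ) ≤ m := by exact_mod_cast h
    have h4 : Real.log (2 * (minpoly ℤ x).natDegree) ≤ l :=
      Real.log_le_log (by linarith) (by linarith)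
    have h5 : 8 * c ≤ c0 := by linarith
    calc 8 * (c / l ^ 3) = 8 * c / l ^ 3 := by ring
      _ ≤ c0 / l ^ 3 := div_le_div_of_nonneg_right h5 hl0.le
      _ ≤ _ := div_le_div_of_nonneg_left hc0.le (by positivity) (pow_le_pow_left₀ h3.le h4 3)
  · set n := (minpoly ℤ x).natDegree with hn
    set t := ∑ m ∈ 𝒟, Nat.totient m with htt
    have hM : 1 < ((minpoly ℤ x).map (Int.castRingHom ℂ)).mahlerMeasure := by rw [← h2]; exact hMgt
    have h3 := (V1156.RC.main_cyc (minpoly ℤ x) (minpoly.irreducible hxi) (minpoly.monic hxi) 𝒟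
      hne hpos n t hn htt ht).2 hM hnd hcl2
    have hln : 0 ≤ Real.log n := Real.log_nonneg hn1
    have ht1 : 1 ≤ t := by
      obtain ⟨m, hm⟩ := hne
      exact le_trans (Nat.totient_pos.mpr (hpos m hm))
        (Finset.single_le_sum (f := fun m => Nat.totient m) (fun _ _ => Nat.zero_le _) hm)
    have ht1' : (1:ℝ) ≤ t := by exact_mod_cast ht1
    set L : ℝ := 1 + Real.log n with hL
    have hL1 : 1 ≤ L := by linarith
    set s := Real.sqrt (n * t) with hs
    have hs0 : 0 < s := Real.sqrt_pos.mpr (by positivity)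
    set u : ℝ := L ^ (3 / 4 : ℝ) with hu
    have hu1 : 1 ≤ u := Real.one_le_rpow hL1 (by norm_num)
    have hu4 : u ^ 4 = L ^ 3 := by
      rw [hu, ← Real.rpow_natCast, ← Real.rpow_mul (by linarith), ← Real.rpow_natCast]
      norm_num
    have h4 := h3 (by
      refine le_trans ?_ hΛ
      nlinarith)
    have h5 : 1 ≤ Real.log (MM x) := by
      rw [h2]
      refine le_trans (le_min (by linarith) ?_) h4
      rw [le_div_iff₀ (by positivity), one_mul, ← hu4]
      refine pow_le_pow_left₀ (by positivity) ?_ 4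
      rw [le_div_iff₀ (by positivity)]
      linarith
    linarith

end Pool.Agent.V1156.GR
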