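import Mathlib
import Pool.Agent.V1156.GR.Few2
import Pool.Agent.H389R3.LR6
import Pool.Agent.Y642.LZ.J

/-!
# Many real or local conjugates: lower bounds for the growth of digit sums
-/

set_option autoImplicit false

universe u

namespace Pool.Agent.V1156.GR

open Polynomial
open Pool.Agent.W963.GE (MM base eta_ge log_base_ge MM_ge MM_gt mm_dob)
open Pool.Agent.Y642.LZ (Place)

/-- **small degree, or many real or local conjugates** -/
theorem many_conj : ∃ c : ℝ, 0 < c ∧ c ≤ 1 / 400 ∧ ∀ (m r : ℕ), 1 ≤ m → 1 ≤ r →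
    ∀ (D : Place.{u}) (x : ℂ), IsIntegral ℤ x → x ≠ 0 → (∀ n > 0, x ^ n ≠ 1) →
    ((minpoly ℤ x).natDegree ≤ m ∨
      ((minpoly ℤ x).natDegree : ℝ) * Real.sqrt (Real.log (2 * (minpoly ℤ x).natDegree)) ≤
        (H389R3.LR.lineRoots (minpoly ℤ x) r : ℝ) ^ 2 ∨
      ∃ Y : Finset D.K, (∀ y ∈ Y, aeval y (minpoly ℤ x) = 0) ∧
        (∀ a ∈ Y, ∀ b ∈ Y, ∀ j : ℕ, 1 ≤ j → a ^ j = b ^ j → a = b) ∧
        ((minpoly ℤ x).natDegree : ℝ) ^ 2 * (1 + Real.log (minpoly ℤ x).natDegree) +
          (minpoly ℤ x).natDegree * (Y.card / D.e * Real.log D.p) ≤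
          ((Y.card : ℝ) ^ 2 / (D.q - 1) / D.e * Real.log D.p) ^ 2) →
    c / (r ^ 5 * (Real.log (2 * m)) ^ 3) ≤ H746UG.eta x := by
  obtain ⟨c0, hc0, hdob⟩ := mm_dob
  refine ⟨min (c0 / 8) (1 / (16 * 10 ^ 8)), by positivity,
    (min_le_right _ _).trans (by norm_num), ?_⟩
  intro m r hm hr D x hxi hx0 hx h
  set c := min (c0 / 8) (1 / (16 * 10 ^ 8)) with hc
  have hcpos : 0 < c := by positivity
  have hc400 : c ≤ 1 / (16 * 10 ^ 8) := min_le_right _ _
  have hcc : c ≤ c0 / 8 := min_le_left _ _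
  have hl2 := Real.log_two_gt_d9
  have hm1 : (1 : ℝ) ≤ m := by exact_mod_cast hm
  have hr1 : (1 : ℝ) ≤ r := by exact_mod_cast hr
  have hr5 : (1 : ℝ) ≤ (r : ℝ) ^ 5 := one_le_pow₀ hr1
  set l := Real.log (2 * m) with hl
  have hl2' : Real.log 2 ≤ l := Real.log_le_log (by norm_num) (by linarith)
  have hl3 : (1 / 4 : ℝ) ≤ l ^ 3 := by
    have : (0.69 : ℝ) ≤ l := by linarith
    calc (1 / 4 : ℝ) ≤ 0.69 ^ 3 := by norm_num
      _ ≤ l ^ 3 := pow_le_pow_left₀ (by norm_num) this 3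
  have hl0 : 0 < l ^ 3 := by linarith
  have hrl : (1 / 4 : ℝ) * r ^ 5 ≤ r ^ 5 * l ^ 3 := by nlinarith
  have hcl5 : c / (r ^ 5 * l ^ 3) ≤ 4 * c / r ^ 5 := by
    rw [div_le_div_iff₀ (by positivity) (by positivity)]
    nlinarith
  have hcl : c / (r ^ 5 * l ^ 3) ≤ 4 * c := hcl5.trans (div_le_self (by positivity) hr5)
  have hMgt := MM_gt x hxi hx0 hx
  apply eta_of_mm hxi hx0
  · norm_num at hc400; linarith
  have h2 : MM x = ((minpoly ℤ x).map (Int.castRingHom ℂ)).mahlerMeasure := rfl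
  have hM0 : 0 < MM x := by linarith
  rcases h with h | h | ⟨Y, hY1, hY2, hY3⟩
  · have h2 := hdob x hxi hx0 hx
    refine le_trans ?_ h2
    have hn1 : (1 : ℝ) ≤ (minpoly ℤ x).natDegree := by exact_mod_cast minpoly.natDegree_pos hxi
    have h3 : 0 < Real.log (2 * (minpoly ℤ x).natDegree) := Real.log_pos (by linarith)
    have hnm : ((minpoly ℤ x).natDegree : ℝ) ≤ m := by exact_mod_cast h
    have h4 : Real.log (2 * (minpoly ℤ x).natDegree) ≤ l :=
      Real.log_le_log (by linarith) (by linarith)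
    have h5 : 8 * c ≤ c0 := by linarith
    calc 8 * (c / (r ^ 5 * l ^ 3)) ≤ 8 * (c / l ^ 3) := by
          apply mul_le_mul_of_nonneg_left _ (by norm_num)
          apply div_le_div_of_nonneg_left hcpos.le hl0
          nlinarith
      _ = 8 * c / l ^ 3 := by ring
      _ ≤ c0 / l ^ 3 := div_le_div_of_nonneg_right h5 hl0.le
      _ ≤ _ := div_le_div_of_nonneg_left hc0.le (by positivity) (pow_le_pow_left₀ h3.le h4 3)
  · have h1 := H389R3.LR.lehmer_lines (minpoly ℤ x) (minpoly.irreducible hxi) (by rw [← h2]; exact hMgt)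
      r hr h
    rw [← h2] at h1
    have h3 := (Real.le_log_iff_exp_le hM0).2 h1
    refine le_trans ?_ h3
    have h4 : 8 * (4 * c / (r : ℝ) ^ 5) ≤ 1 / (5 * 10 ^ 7 * r ^ 5) := by
      rw [show 8 * (4 * c / (r : ℝ) ^ 5) = (32 * c) / r ^ 5 by ring,
        show 1 / (5 * 10 ^ 7 * (r : ℝ) ^ 5) = (1 / (5 * 10 ^ 7)) / r ^ 5 by rw [div_div]]
      apply div_le_div_of_nonneg_right _ (by positivity)
      norm_num at hc400 ⊢
      linarith
    linarith
  · have h1 := Y642.LZ.sharp_lehmer (minpoly ℤ x) (minpoly.irreducible hxi)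
      (by rw [← h2]; exact hMgt) (Finset.univ : Finset Unit) (fun _ => D) (by
        intro a _ b _ _; rfl) (fun _ => Y) (fun _ _ => hY1) (fun _ _ => hY2) (fun _ => 1) rfl rfl (by
        have e1 : Y642.LZ.linJ (Finset.univ : Finset Unit) (fun _ => D) (fun _ => 1)
            (fun _ => Y.card) = Y.card / D.e * Real.log D.p := by
          unfold Y642.LZ.linJ
          simp
        have e2 : Y642.LZ.sqJ (Finset.univ : Finset Unit) (fun _ => D) (fun _ => 1)
            (fun _ => Y.card) = (Y.card : ℝ) ^ 2 / (D.q - 1) / D.e * Real.log D.p := by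
          unfold Y642.LZ.sqJ Y642.LZ.lev
          simp only [Finset.univ_unique, Finset.sum_singleton, Finset.sum_range_one, pow_zero,
            mul_one]
          ring
        rw [e1, e2]
        exact hY3)
    rw [← h2] at h1
    have h3 : Real.log (1189 / 1000) ≤ Real.log (MM x) := Real.log_le_log (by norm_num) h1
    have h4 : (0.1 : ℝ) ≤ Real.log (1189 / 1000) := by
      rw [Real.le_log_iff_exp_le (by norm_num)]
      have := Real.exp_bound' (x := 0.1) (by norm_num) (by norm_num) (n := 3) (by norm_num)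
      refine this.trans ?_
      norm_num [Finset.sum_range_succ, Nat.factorial]
    norm_num at hc400
    linarith

/-- the number of conjugates whose `r`-th power is real -/
theorem lineRoots_eq {x : ℂ} (hxi : IsIntegral ℤ x) (r : ℕ) :
    {w : ℂ | aeval w (minpoly ℤ x) = 0 ∧ (w ^ r).im = 0}.ncard =
      H389R3.LR.lineRoots (minpoly ℤ x) r := by
  classical
  unfold H389R3.LR.lineRoots
  have hnd := Pool.Agent.W963.GE.roots_nodup x hxi
  have hne := Pool.Agent.W963.GE.minpoly_ne x hxi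
  have h1 : (((minpoly ℤ x).map (Int.castRingHom ℂ)).roots.filter fun z => (z ^ r).im = 0).Nodup :=
    hnd.filter _
  rw [← Multiset.toFinset_card_of_nodup h1, ← Set.ncard_coe_finset]
  congr 1
  ext w
  rw [Finset.mem_coe, Multiset.mem_toFinset, Multiset.mem_filter, mem_roots hne,
    IsRoot.def, eval_map]
  rfl

end Pool.Agent.V1156.GR
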